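import Pool.Agent.Lib.MP_8d6beb_co.Real
import Pool.Agent.Lib.MP_8d6beb_co.QMain

/-! Every orthogonal polygon with `n` vertices and `h` holes is guarded by at most `(n + h) / 4`
vertex guards. -/

namespace Pool.Agent.Results.MP_8d6beb_co.Shermer

open Set Pool.Agent.Lib.MP_8d6beb_co

theorem result (h : ℕ) (Q : Fin (h + 1) → Set (ℝ × ℝ)) (m : Fin (h + 1) → ℕ)
    (v : Fin (h + 1) → ℕ → ℝ × ℝ) (hQ : ∀ k, IsOrthPolygon (Q k) (m k) (v k))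
    (hin : ∀ k, k ≠ 0 → Q k ⊆ interior (Q 0))
    (hdis : ∀ k l, k ≠ 0 → l ≠ 0 → k ≠ l → Disjoint (Q k) (Q l))
    (P : Set (ℝ × ℝ)) (hP : P = Q 0 \ ⋃ k ≠ 0, interior (Q k)) :
    ∃ G : Finset (ℝ × ℝ), (∀ g ∈ G, ∃ k, ∃ i < m k, g = v k i) ∧ G.card ≤ (∑ k, m k + h) / 4 ∧
      ∀ p ∈ P, ∃ g ∈ G, segment ℝ g p ⊆ P ∧ uIcc g.1 p.1 ×ˢ uIcc g.2 p.2 ⊆ P :=
  shermer_of_core (fun _ _ _ => good_of_no_mc no_mc) h Q m v hQ hin hdis P hP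

end Pool.Agent.Results.MP_8d6beb_co.Shermer
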